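import Mathlib
import Pool.Agent.H410R2.ACIface

set_option autoImplicit false

open Finset

namespace Pool.Agent.H212R2.AC4b

open Pool.Agent.H410R2.AC

theorem pos_cons {j : ℕ} (o : Option ℕ) (h : Fin j → Option ℕ) :
    pos (Fin.cons o h : Fin (j + 1) → Option ℕ) = pos h ∪ o.toFinset := by
  ext a
  simp only [pos, Finset.mem_eraseNone, Finset.mem_image, Finset.mem_univ, true_and,
    Finset.mem_union, Option.mem_toFinset, Option.mem_def]
  constructor
  · rintro ⟨i, hi⟩
    refine Fin.cases ?_ ?_ i hi
    · intro h0
      right
      simpa using h0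
    · intro i h0
      left
      exact ⟨i, by simpa using h0⟩
  · rintro (⟨i, hi⟩ | h0)
    · exact ⟨i.succ, by simpa using hi⟩
    · exact ⟨0, by simpa using h0⟩

theorem pos_card_le {j : ℕ} (h : Fin j → Option ℕ) : (pos h).card ≤ j := by
  have h1 : (pos h).card ≤ (Finset.univ.image h).card := by
    apply Finset.card_le_card_of_injOn (fun a => some a)
    · intro a ha
      simpa [pos] using ha
    · intro a _ b _ hab
      exact Option.some_injective _ hab
  exact h1.trans (Finset.card_image_le.trans (by simp))

theorem countMaps : CountMaps := by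
  intro j B V hV
  induction j with
  | zero => simp [pos]
  | succ j ih =>
    have hre : ∑ h ∈ Fintype.piFinset (fun _ : Fin (j + 1) => Finset.insertNone B),
        V ^ (pos h).card =
        ∑ x ∈ (Finset.insertNone B) ×ˢ Fintype.piFinset (fun _ : Fin j => Finset.insertNone B),
          V ^ (pos (Fin.cons x.1 x.2 : Fin (j + 1) → Option ℕ)).card := by
      symm
      refine Finset.sum_nbij' (fun x => (Fin.cons x.1 x.2 : Fin (j + 1) → Option ℕ))
        (fun h => (h 0, Fin.tail h)) ?_ ?_ ?_ ?_ ?_
      · intro x hx
        rw [Finset.mem_product, Fintype.mem_piFinset] at hx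
        rw [Fintype.mem_piFinset]
        intro i
        refine Fin.cases ?_ ?_ i
        · simpa using hx.1
        · intro i
          simpa using hx.2 i
      · intro h hh
        rw [Fintype.mem_piFinset] at hh
        rw [Finset.mem_product, Fintype.mem_piFinset]
        exact ⟨hh 0, fun i => hh i.succ⟩
      · intro x _
        simp
      · intro h _
        simp
      · intro x _
        rfl
    rw [hre, Finset.sum_product_right]
    have hin : ∀ h ∈ Fintype.piFinset (fun _ : Fin j => Finset.insertNone B),
        ∑ o ∈ Finset.insertNone B, V ^ (pos (Fin.cons o h : Fin (j + 1) → Option ℕ)).card ≤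
          (1 + j + B.card * V) * V ^ (pos h).card := by
      intro h _
      have hsum : ∑ o ∈ Finset.insertNone B,
          V ^ (pos (Fin.cons o h : Fin (j + 1) → Option ℕ)).card =
          V ^ (pos h).card + ∑ a ∈ B, V ^ (pos h ∪ {a}).card := by
        rw [Finset.sum_insertNone]
        congr 1
        · rw [pos_cons]; simp
        · refine Finset.sum_congr rfl fun a _ => ?_
          rw [pos_cons]; simp
      rw [hsum]
      have hterm : ∀ a ∈ B, V ^ (pos h ∪ {a}).card ≤
          (if a ∈ pos h then V ^ (pos h).card else 0) + V * V ^ (pos h).card := by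
        intro a _
        have hp : 0 ≤ V ^ (pos h).card := pow_nonneg hV _
        by_cases ha : a ∈ pos h
        · rw [if_pos ha, Finset.union_eq_left.2 (by simpa using ha)]
          have := mul_nonneg hV hp
          linarith
        · rw [if_neg ha, Finset.card_union_of_disjoint (by simpa using ha), Finset.card_singleton,
            pow_succ]
          linarith
      have h2 := Finset.sum_le_sum hterm
      rw [Finset.sum_add_distrib, Finset.sum_const, nsmul_eq_mul, ← Finset.sum_filter,
        Finset.sum_const, nsmul_eq_mul] at h2
      have h3 : ((B.filter (fun a => a ∈ pos h)).card : ℝ) ≤ j := by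
        have h4 : (B.filter (fun a => a ∈ pos h)).card ≤ (pos h).card :=
          Finset.card_le_card fun x hx => (Finset.mem_filter.1 hx).2
        exact_mod_cast h4.trans (pos_card_le h)
      have hp : 0 ≤ V ^ (pos h).card := pow_nonneg hV _
      have h5 := mul_le_mul_of_nonneg_right h3 hp
      nlinarith
    refine (Finset.sum_le_sum hin).trans ?_
    rw [← Finset.mul_sum]
    have hpos : (0 : ℝ) ≤ 1 + j + B.card * V := by positivity
    have h6 : (1 + (j : ℝ) + B.card * V) ≤ 1 + ((j + 1 : ℕ) : ℝ) + B.card * V := by
      push_cast; linarith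
    calc (1 + (j : ℝ) + B.card * V) *
          ∑ h ∈ Fintype.piFinset (fun _ : Fin j => Finset.insertNone B), V ^ (pos h).card
        ≤ (1 + (j : ℝ) + B.card * V) * (1 + j + B.card * V) ^ j :=
          mul_le_mul_of_nonneg_left ih hpos
      _ = (1 + (j : ℝ) + B.card * V) ^ (j + 1) := by ring
      _ ≤ _ := pow_le_pow_left₀ hpos h6 _

end Pool.Agent.H212R2.AC4b
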